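import Pool.Agent.H63.PK.Targets
import Pool.Agent.H74.PK.EXP

/-!
Board pwk_modules (MP_559314_gt), row EXH: the exponential of the generic combination is weighted
homogeneous and compatible with ring homomorphisms.
-/

set_option autoImplicit false

open Finset

namespace Pool.Agent.H1.PK

open Pool.Agent.H59.LIN Pool.Agent.H13.LN Pool.Agent.H63.PK

theorem gx_hom {R : Type} [CommRing R] {r : ℕ → ℕ} (x : (d : ℕ) → Fin (r d) → List ℕ → R)
    (l : List ℕ) : MvPolynomial.IsWeightedHomogeneous (wv r) (gx x l) (l.length / 2) := by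
  unfold gx
  refine MvPolynomial.IsWeightedHomogeneous.sum _ _ _ fun i _ => ?_
  have h1 := (MvPolynomial.isWeightedHomogeneous_C (R := R) (wv r) (x (l.length / 2) i l)).mul
    (MvPolynomial.isWeightedHomogeneous_X R (wv r) (⟨l.length / 2, i⟩ : Σ d : ℕ, Fin (r d)))
  have h2 : 0 + wv r ⟨l.length / 2, i⟩ = l.length / 2 := by
    rw [zero_add]
    rfl
  rwa [h2] at h1

theorem exh (hB : T_ESB) (hC : T_ESC) : T_EXH := by
  constructor
  · intro R _ r x d l hl
    have hd : l.toFinset.card = d := by
      have h1 := Pool.Agent.H74.PK.gw_of_clo hl.2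
      have h2 := h1.1
      rw [hl.1] at h2
      omega
    rw [← hd]
    unfold Ex
    refine hC.2.2.2 R (Σ d : ℕ, Fin (r d)) (wv r) _ _ ?_
    intro J hJ _
    have h3 := Pool.Agent.H74.PK.gw_rs hl J
    have h4 := gx_hom x (rs J l)
    have h5 : (rs J l).toFinset = J := by
      ext a
      rw [List.mem_toFinset, Pool.Agent.H74.PK.mem_rs]
      exact ⟨fun h => h.2, fun h => ⟨List.mem_toFinset.1 (hJ h), h⟩⟩
    rw [h5] at h3
    have h6 : (rs J l).length / 2 = J.card := by
      have := h3.1
      omega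
    rwa [h6] at h4
  · intro R S _ _ φ r x x' h d l hl
    unfold Ex
    rw [hB.2.2.1]
    refine hB.1 _ _ _ _ ?_
    intro J hJ _
    have h3 := Pool.Agent.H74.PK.gw_rs hl J
    unfold gx
    rw [map_sum]
    refine Finset.sum_congr rfl fun i _ => ?_
    rw [map_mul, MvPolynomial.map_C, MvPolynomial.map_X]
    rw [h _ i _ ⟨by have := h3.1; omega, h3.2⟩]

end Pool.Agent.H1.PK
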