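import Pool.Agent.H65.PK.Targets

/-!
# MP_58ae59_nt, row GRO: growth
-/

set_option autoImplicit false

namespace Pool.Agent.H1.PK

open Pool.Agent.H65.PK

theorem pf_GRO : Pool.Agent.H18.TD.T_GRW → T_GRO := by
  intro hG K g hK hg C E
  obtain ⟨h0, h3, H⟩ := hG (max C 0) (2 * E)
  refine ⟨h0, h3, fun h hh => ?_⟩
  have hlog := hg.log h (by omega)
  have h1 : (1 : ℝ) ≤ (g h : ℝ) := by exact_mod_cast hg.one h
  have h2 : (g h : ℝ) ≤ (g h : ℝ) ^ K := le_self_pow₀ h1 (by omega)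
  have h4 : (g h : ℝ) ≤ 1 + Real.log h := by linarith
  have h5 : (g h : ℝ) ^ E ≤ (1 + Real.log h) ^ E :=
    pow_le_pow_left₀ (by linarith) h4 E
  have h6 : 0 ≤ (1 + Real.log h) ^ E := pow_nonneg (by linarith) E
  have h7 : (g h : ℝ) ^ E * (1 + Real.log h) ^ E ≤ (1 + Real.log h) ^ (2 * E) := by
    rw [two_mul, pow_add]
    exact mul_le_mul_of_nonneg_right h5 h6
  have h8 : 0 ≤ (g h : ℝ) ^ E * (1 + Real.log h) ^ E :=
    mul_nonneg (pow_nonneg (by linarith) E) h6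
  calc C * ((g h : ℝ) ^ E * (1 + Real.log h) ^ E)
      ≤ max C 0 * ((g h : ℝ) ^ E * (1 + Real.log h) ^ E) :=
        mul_le_mul_of_nonneg_right (le_max_left _ _) h8
    _ ≤ max C 0 * (1 + Real.log h) ^ (2 * E) :=
        mul_le_mul_of_nonneg_left h7 (le_max_right _ _)
    _ ≤ h := H h hh

end Pool.Agent.H1.PK
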