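import Pool.Agent.H63.PK.Targets
import Pool.Agent.H74.PK.EXP

/-!
Board pwk_modules (MP_559314_gt), row THE: the endomorphism of the polynomial ring.
-/

set_option autoImplicit false

open Finset

namespace Pool.Agent.H1.PK

open Pool.Agent.H59.LIN Pool.Agent.H13.LN Pool.Agent.H63.PK

theorem gx_eq {R : Type} [CommRing R] {r : ℕ → ℕ} (x : (d : ℕ) → Fin (r d) → List ℕ → R)
    (l : List ℕ) (d : ℕ) (h : l.length / 2 = d) :
    gx x l = ∑ i : Fin (r d), MvPolynomial.C (x d i l) * MvPolynomial.X ⟨d, i⟩ := by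
  subst h
  rfl

theorem rs_self (l : List ℕ) : rs l.toFinset l = l := by
  unfold rs
  rw [List.filter_eq_self]
  intro a ha
  simpa using ha

theorem rs_card {d : ℕ} {l : List ℕ} (hl : Gw d l) {J : Finset ℕ} (hJ : J ⊆ l.toFinset) :
    (rs J l).length / 2 = J.card := by
  have h3 := Pool.Agent.H74.PK.gw_rs hl J
  have h5 : (rs J l).toFinset = J := by
    ext a
    rw [List.mem_toFinset, Pool.Agent.H74.PK.mem_rs]
    exact ⟨fun h => h.2, fun h => ⟨List.mem_toFinset.1 (hJ h), h⟩⟩
  rw [h5] at h3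
  have := h3.1
  omega

theorem card_toFinset {d : ℕ} {l : List ℕ} (hl : Gw d l) : l.toFinset.card = d := by
  have h1 := (Pool.Agent.H74.PK.gw_of_clo hl.2).1
  rw [hl.1] at h1
  omega

theorem the_row (hALG : T_ALG) (hESC : T_ESC) (hEXP : T_EXP) (hGXP : T_GXP) (hAUT : T_AUT) :
    T_THE := by
  intro R _ r x y hD
  have hP : ∀ d, PWS d (gx x) := hGXP R r x hD.pws
  obtain ⟨hW, h1, hM⟩ := hEXP (MvPolynomial (Σ d : ℕ, Fin (r d)) R) (gx x) fun d => (hP d).ws
  obtain ⟨Ψ, hΨ⟩ := (hALG R).1 (MvPolynomial (Σ d : ℕ, Fin (r d)) R) (Ex (gx x)) hW h1 (hM hP)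
  refine ⟨Ψ, hΨ, ?_⟩
  -- the difference
  have hdiff : ∀ j : (Σ d : ℕ, Fin (r d)), (Ψ.comp (Ph R y)) (MvPolynomial.X j) -
      MvPolynomial.X j = (y j.1 j.2).sum fun l c => c • (Ex (gx x) l.1 - gx x l.1) := by
    intro j
    have e1 : (Ψ.comp (Ph R y)) (MvPolynomial.X j) =
        (y j.1 j.2).sum fun l c => c • Ex (gx x) l.1 := by
      rw [AlgHom.comp_apply]
      unfold Ph
      rw [MvPolynomial.aeval_X]
      unfold ya
      rw [Finsupp.sum, map_sum, Finsupp.sum]
      refine Finset.sum_congr rfl fun l _ => ?_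
      rw [map_smul, hΨ]
    have e2 : (y j.1 j.2).sum (fun l c => c • gx x l.1) = MvPolynomial.X j := by
      have e3 : ∀ l : GW j.1, gx x l.1 =
          ∑ i : Fin (r j.1), MvPolynomial.C (x j.1 i l.1) * MvPolynomial.X ⟨j.1, i⟩ := fun l =>
        gx_eq x l.1 j.1 (by have := l.2.1; omega)
      rw [Finsupp.sum]
      simp only [e3, Finset.smul_sum]
      rw [Finset.sum_comm]
      have e4 : ∀ i : Fin (r j.1), ∑ l ∈ (y j.1 j.2).support, (y j.1 j.2) l •
          (MvPolynomial.C (x j.1 i l.1) * MvPolynomial.X (⟨j.1, i⟩ : Σ d : ℕ, Fin (r d)) :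
            MvPolynomial (Σ d : ℕ, Fin (r d)) R) =
          if i = j.2 then MvPolynomial.X ⟨j.1, i⟩ else 0 := by
        intro i
        have e5 := hD.dual j.1 i j.2
        rw [Finsupp.sum] at e5
        have e6 : ∀ l : GW j.1, (y j.1 j.2) l •
            (MvPolynomial.C (x j.1 i l.1) * MvPolynomial.X (⟨j.1, i⟩ : Σ d : ℕ, Fin (r d)) :
              MvPolynomial (Σ d : ℕ, Fin (r d)) R) =
            MvPolynomial.C ((y j.1 j.2) l * x j.1 i l.1) * MvPolynomial.X ⟨j.1, i⟩ := by
          intro l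
          rw [MvPolynomial.smul_eq_C_mul, ← mul_assoc, ← MvPolynomial.C_mul]
        rw [Finset.sum_congr rfl fun l _ => e6 l, ← Finset.sum_mul, ← map_sum, e5]
        split_ifs
        · rw [map_one, one_mul]
        · rw [map_zero, zero_mul]
      rw [Finset.sum_congr rfl fun i _ => e4 i, Finset.sum_ite_eq' Finset.univ j.2,
        if_pos (Finset.mem_univ _)]
    rw [e1]
    calc (y j.1 j.2).sum (fun l c => c • Ex (gx x) l.1) - MvPolynomial.X j
        = (y j.1 j.2).sum (fun l c => c • Ex (gx x) l.1) -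
          (y j.1 j.2).sum (fun l c => c • gx x l.1) := by rw [e2]
      _ = _ := by
          rw [Finsupp.sum, Finsupp.sum, Finsupp.sum, ← Finset.sum_sub_distrib]
          exact Finset.sum_congr rfl fun l _ => by rw [smul_sub]
  have hpos : ∀ j : (Σ d : ℕ, Fin (r d)), 0 < j.1 := by
    rintro ⟨d, i⟩
    rcases Nat.eq_zero_or_pos d with h0 | h0
    · subst h0
      have h2 : (i : ℕ) < r 0 := i.2
      have h3 := hD.zero
      omega
    · exact h0
  have hne : ∀ (j : (Σ d : ℕ, Fin (r d))) (l : GW j.1), l.1.toFinset.Nonempty := by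
    intro j l
    rw [← Finset.card_pos, card_toFinset l.2]
    exact hpos j
  refine hAUT R (Σ d : ℕ, Fin (r d)) (wv r) _ ?_ ?_
  · intro j
    rw [hdiff j, Finsupp.sum]
    refine Ideal.sum_mem _ fun l _ => ?_
    rw [MvPolynomial.smul_eq_C_mul]
    refine Ideal.mul_mem_left _ _ ?_
    have h2 := hESC.1 _ (Ideal.span (Set.range MvPolynomial.X) :
      Ideal (MvPolynomial (Σ d : ℕ, Fin (r d)) R)) (fun J => gx x (rs J l.1)) l.1.toFinset
      (hne j l) ?_
    · simp only [rs_self] at h2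
      exact h2
    · intro J _ _
      unfold gx
      refine Ideal.sum_mem _ fun i _ => ?_
      exact Ideal.mul_mem_left _ _ (Ideal.subset_span ⟨_, rfl⟩)
  · intro j
    rw [hdiff j, Finsupp.sum]
    refine Subalgebra.sum_mem _ fun l _ => ?_
    refine Subalgebra.smul_mem _ ?_ _
    have h2 := hESC.2.1 R _ (Algebra.adjoin R (MvPolynomial.X '' {i | wv r i < wv r j}) :
      Subalgebra R (MvPolynomial (Σ d : ℕ, Fin (r d)) R)) (fun J => gx x (rs J l.1))
      l.1.toFinset (hne j l) ?_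
    · simp only [rs_self] at h2
      exact h2
    · intro J hJ _
      have h3 := rs_card l.2 hJ.1
      show gx x (rs J l.1) ∈ _
      rw [gx_eq x (rs J l.1) J.card h3]
      refine Subalgebra.sum_mem _ fun i _ => ?_
      rw [← MvPolynomial.smul_eq_C_mul]
      refine Subalgebra.smul_mem _ (Algebra.subset_adjoin ?_) _
      refine ⟨⟨J.card, i⟩, ?_, rfl⟩
      show J.card < j.1
      have h4 := Finset.card_lt_card hJ
      rwa [card_toFinset l.2] at h4

end Pool.Agent.H1.PK
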